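import Pool.Agent.H58.HN.TargetsG

/-!
# Limits of adjacent maps
-/

set_option autoImplicit false

namespace Pool.Agent.H89.HN

open Pool.Agent.H58.HN

theorem pf_LA : T_LA := by
  intro V T Y E R Q p hp
  refine ⟨fun Φ _ => ?_, fun Φ Φ' φ φ' h h' hΦ s t hst => ?_⟩
  · choose φ hφ using fun t => Pool.Agent.H53.RG.exists_lim (p t) Φ
    exact ⟨φ, hφ⟩
  · obtain ⟨a, ha, b, hb, hab⟩ := hp s t hst _ (h s) _ (h' t)
    have h1 := hΦ a b hab
    have e1 : Φ a = φ s := ha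
    have e2 : Φ' b = φ' t := hb
    rwa [e1, e2] at h1

end Pool.Agent.H89.HN
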